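import Mathlib
import Pool.Agent.TH763.Rand.Neg
import Pool.Agent.TH763.Rand.Bound

set_option autoImplicit false

/-!
# Adding random reals destroys the strong polarized relation at the dominating number

For every cardinal `λ ≥ 𝔡` (the cardinality of `L`), the forcing which adds `λ` random reals (the
measure algebra of the product measure on `2 ^ (L × ω)`) preserves cardinals and the value of
the dominating number `𝔡`, and it forces that the strong polarized relation fails at `𝔡`, no
matter whether the relation holds at `𝔡` in the ground model. The colouring which witnesses the
failure is the sequence of the first `𝔡` random reals. (By `not_polarized`, the relation fails in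
the extension at every uncountable cardinal `κ ≤ λ`.)

Proof. Let `A` and `B` be names such that a condition `r` forces that the random reals with
index in `A` are constant on the infinite set `B ⊆ ω`. The name `B` depends on countably many
rows of `L × ω`. For an index `a` outside of these rows the random real with index `a` is
independent of `B`, so almost surely it takes both values on `B`. Hence `A` is contained in
a countable set of the ground model, which is impossible as the forcing has the countable chain
condition.
-/

namespace Pool.Agent.Results.MP_95a70f_lc.RandomDestroys

open Cardinal Pool.Agent.TH763.Rand

/-- Adding `λ ≥ 𝔡` random reals preserves cardinals and `𝔡` and forces the failure of the strong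
polarized relation at `𝔡`. -/
theorem result (L : Type) (hL : dominatingNumber ≤ #L) (p : Random L) :
    p ∈ CardinalsPreserved.{0, 0} (Random L) ∧
    p ∈ DominatingNumberIs (Random L) dominatingNumber ∧
    p ∈ fnot (Polarized (Random L) dominatingNumber.ord.ToType ℕ) := by
  refine ⟨cardinalsPreserved_of_ccc MAlg.ccc p, dominatingNumberIs p, ?_⟩
  have hle : #(dominatingNumber.ord.ToType) ≤ #L := by rwa [Cardinal.mk_ord_toType]
  obtain ⟨e⟩ := (Cardinal.le_def _ _).1 hle
  refine not_polarized ?_ e e.injective p
  rw [Cardinal.mk_ord_toType]
  exact aleph0_lt_dominatingNumber

end Pool.Agent.Results.MP_95a70f_lc.RandomDestroys
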